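import Pool.Agent.Lib.MP_62ba83_co.BL.Bridge

set_option autoImplicit false

namespace Pool.Agent.Lib.MP_62ba83_co.S

theorem indep_of_gen {K : Type} [Field K] [CharZero K] {S : Set K}
    (gen : IntermediateField.adjoin ℚ S = ⊤) (tr : 6 ≤ Algebra.trdeg ℚ K) (f : Fin 6 → K)
    (h : ∀ z ∈ S, IsAlgebraic (Algebra.adjoin ℚ (Set.range f)) z) : AlgebraicIndependent ℚ f := by
  have : Algebra.IsAlgebraic (Algebra.adjoin ℚ (Set.range f)) K := by
    refine ⟨fun z => ?_⟩
    have hz : z ∈ IntermediateField.adjoin ℚ S := gen ▸ IntermediateField.mem_top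
    induction hz using IntermediateField.adjoin_induction with
    | mem z hz => exact h z hz
    | algebraMap q =>
      exact isAlgebraic_algebraMap
        (⟨_, Subalgebra.algebraMap_mem _ q⟩ : Algebra.adjoin ℚ (Set.range f))
    | add a b _ _ ha hb => exact ha.add hb
    | inv a _ ha => exact ha.inv
    | mul a b _ _ ha hb => exact ha.mul hb
  exact (Algebra.IsAlgebraic.isTranscendenceBasis_of_le_trdeg_of_finite ℚ f (by simpa using tr)).1

/-- normalised coordinates -/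
theorem exists_coord (K M : Type) [Field K] [CharZero K] [Field M] [Algebra K M]
    (d : Fin 5 → Fin 5 → K) (X Y : Fin 5 → M)
    (hd : ∀ a b, algebraMap K M (d a b) ^ 2 = (X a - X b) ^ 2 + (Y a - Y b) ^ 2) (d01 : d 0 1 = 1)
    (gen : IntermediateField.adjoin ℚ (Set.range fun p : Fin 5 × Fin 5 => d p.1 p.2) = ⊤)
    (tr : 6 ≤ Algebra.trdeg ℚ K) : ∃ (D : K) (x y : Fin 5 → K),
      (∀ a b, d a b ^ 2 = (x a - x b) ^ 2 + D * (y a - y b) ^ 2) ∧ x 0 = 0 ∧ y 0 = 0 ∧ x 1 = 1 ∧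
      y 1 = 0 ∧ y 2 = 1 ∧ AlgebraicIndependent ℚ ![D, x 2, x 3, y 3, x 4, y 4] := by
  have inj := (algebraMap K M).injective
  have : CharZero M := charZero_of_injective_algebraMap inj
  let c : Fin 5 × Fin 2 → M := fun s => ![X s.1, Y s.1] s.2
  have hn : BL.nn c = 1 := by
    have := hd 1 0
    have h2 := hd 0 1
    rw [d01, map_one] at h2
    simp only [BL.nn, c, Matrix.cons_val_zero, Matrix.cons_val_one]
    linear_combination -h2
  have key : ∀ a b, algebraMap K M (d a b) ^ 2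
      = (BL.xx c a - BL.xx c b) ^ 2 + (BL.yy c a - BL.yy c b) ^ 2 := by
    intro a b
    rw [BL.xy_sq, hn, hd]
    simp [c]
  let x : Fin 5 → K := fun j => (1 + d 0 j ^ 2 - d 1 j ^ 2) / 2
  have hx : ∀ j, algebraMap K M (x j) = BL.xx c j := by
    intro j
    simp only [x, map_div₀, map_sub, map_add, map_pow, map_one, map_ofNat, key, BL.xx_zero,
      BL.yy_zero, BL.xx_one, BL.yy_one, hn]
    ring
  let b : Fin 5 → Fin 5 → K := fun i j => (d 0 i ^ 2 + d 0 j ^ 2 - d i j ^ 2) / 2 - x i * x j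
  have hb : ∀ i j, algebraMap K M (b i j) = BL.yy c i * BL.yy c j := by
    intro i j
    simp only [b, map_div₀, map_sub, map_add, map_pow, map_mul, map_ofNat, key, hx, BL.xx_zero,
      BL.yy_zero]
    ring
  have x0 : x 0 = 0 := inj (by rw [hx, BL.xx_zero, map_zero])
  have x1 : x 1 = 1 := inj (by rw [hx, BL.xx_one, hn, map_one])
  have b0 : ∀ j, b 0 j = 0 := fun j => inj (by rw [hb, BL.yy_zero, map_zero, zero_mul])
  have b1 : ∀ j, b 1 j = 0 := fun j => inj (by rw [hb, BL.yy_one, map_zero, zero_mul])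
  have D0 : b 2 2 ≠ 0 := by
    refine (indep_of_gen gen tr ![b 2 2, b 3 3, b 4 4, x 2, x 3, x 4] ?_).ne_zero 0
    set A := Algebra.adjoin ℚ (Set.range ![b 2 2, b 3 3, b 4 4, x 2, x 3, x 4])
    have hm : ∀ i, ![b 2 2, b 3 3, b 4 4, x 2, x 3, x 4] i ∈ A :=
      fun i => Algebra.subset_adjoin ⟨i, rfl⟩
    have mx : ∀ i, x i ∈ A := by
      intro i
      fin_cases i
      exacts [x0 ▸ A.zero_mem, x1 ▸ A.one_mem, hm 3, hm 4, hm 5]
    have mb : ∀ i, b i i ∈ A := by
      intro i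
      fin_cases i
      exacts [b0 0 ▸ A.zero_mem, b1 1 ▸ A.zero_mem, hm 0, hm 1, hm 2]
    have al : ∀ z ∈ A, IsAlgebraic A z := fun z hz => isAlgebraic_algebraMap (⟨z, hz⟩ : A)
    rintro _ ⟨⟨i, j⟩, rfl⟩
    have e1 : b i j ^ 2 = b i i * b j j := inj (by rw [map_pow, map_mul, hb, hb, hb]; ring)
    have e2 : d i j ^ 2 = ((x i - x j) ^ 2 + b i i + b j j) - (b i j + b i j) := inj (by
      simp only [map_sub, map_add, map_pow, key, hx, hb]; ring)
    have a1 : IsAlgebraic A (b i j) :=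
      IsAlgebraic.of_pow two_pos (al _ (e1 ▸ mul_mem (mb i) (mb j)))
    refine IsAlgebraic.of_pow two_pos ?_
    change IsAlgebraic A (d i j ^ 2)
    rw [e2]
    exact (al _ (add_mem (add_mem (pow_mem (sub_mem (mx i) (mx j)) _) (mb i)) (mb j))).sub
      (a1.add a1)
  have hy2 : BL.yy c 2 ≠ 0 := fun h => D0 (inj (by rw [hb, h, map_zero, zero_mul]))
  let y : Fin 5 → K := fun j => b j 2 / b 2 2
  have y0 : y 0 = 0 := by simp [y, b0]
  have y1 : y 1 = 0 := by simp [y, b1]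
  have y2 : y 2 = 1 := div_self D0
  have hd' : ∀ i j, d i j ^ 2 = (x i - x j) ^ 2 + b 2 2 * (y i - y j) ^ 2 := fun i j => inj (by
    simp only [y, map_sub, map_add, map_pow, map_mul, map_div₀, key, hx, hb]
    field_simp)
  have ind : AlgebraicIndependent ℚ ![b 2 2, x 2, x 3, y 3, x 4, y 4] := by
    refine indep_of_gen gen tr _ ?_
    set A := Algebra.adjoin ℚ (Set.range ![b 2 2, x 2, x 3, y 3, x 4, y 4])
    have hm : ∀ i, ![b 2 2, x 2, x 3, y 3, x 4, y 4] i ∈ A :=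
      fun i => Algebra.subset_adjoin ⟨i, rfl⟩
    have mx : ∀ i, x i ∈ A := by
      intro i
      fin_cases i
      exacts [x0 ▸ A.zero_mem, x1 ▸ A.one_mem, hm 1, hm 2, hm 4]
    have my : ∀ i, y i ∈ A := by
      intro i
      fin_cases i
      exacts [y0 ▸ A.zero_mem, y1 ▸ A.zero_mem, y2 ▸ A.one_mem, hm 3, hm 5]
    rintro _ ⟨⟨i, j⟩, rfl⟩
    refine IsAlgebraic.of_pow two_pos (isAlgebraic_algebraMap (⟨d i j ^ 2, ?_⟩ : A))
    rw [hd']
    exact add_mem (pow_mem (sub_mem (mx _) (mx _)) _)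
      (mul_mem (hm 0) (pow_mem (sub_mem (my _) (my _)) _))
  exact ⟨b 2 2, x, y, hd', x0, y0, x1, y1, y2, ind⟩

end Pool.Agent.Lib.MP_62ba83_co.S
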