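import Mathlib

set_option autoImplicit false

namespace Pool.Agent.Lib.MP_62ba83_co.S

open scoped IntermediateField.algebraAdjoinAdjoin
open IntermediateField

theorem smooth_field (K F : Type) [Field K] [Field F] [CharZero K] [Algebra K F] :
    Algebra.FormallySmooth K F := by
  obtain ⟨s, hs⟩ := exists_isTranscendenceBasis K F
  have := hs.isAlgebraic_field
  exact Algebra.FormallySmooth.of_algebraicIndependent_of_isSeparable hs.1

/-- derivations extend from a subring to a field of characteristic zero -/
theorem extend (A F : Type) [CommRing A] [IsDomain A] [Field F] [CharZero F] [Algebra ℚ A]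
    [Algebra A F] [FaithfulSMul A F] (δ : Derivation ℚ A F) :
    ∃ η : Derivation ℚ F F, ∀ a, η (algebraMap A F a) = δ a := by
  let _ := FractionRing.liftAlgebra A F
  have := FractionRing.isScalarTower_liftAlgebra A F
  have : CharZero A := algebraRat.charZero A
  have := smooth_field (FractionRing A) F
  have : Algebra.FormallySmooth A (FractionRing A) :=
    Algebra.FormallySmooth.of_isLocalization (nonZeroDivisors A)
  have : Algebra.FormallySmooth A F := Algebra.FormallySmooth.comp A (FractionRing A) F
  have hinj : Function.Injective (KaehlerDifferential.mapBaseChange ℚ A F) := by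
    rw [injective_iff_map_eq_zero]
    intro x hx
    obtain ⟨z, rfl⟩ := (Algebra.H1Cotangent.exact_δ_mapBaseChange ℚ A F x).1 hx
    rw [Subsingleton.elim z 0, map_zero]
  obtain ⟨g, hg⟩ := LinearMap.exists_leftInverse_of_injective _ (LinearMap.ker_eq_bot.2 hinj)
  refine ⟨((δ.liftKaehlerDifferential.liftBaseChange F) ∘ₗ g).compDer
    (KaehlerDifferential.D ℚ F), fun a => ?_⟩
  have h := LinearMap.congr_fun hg (1 ⊗ₜ KaehlerDifferential.D ℚ A a)
  simp only [LinearMap.comp_apply, KaehlerDifferential.mapBaseChange_tmul, one_smul,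
    KaehlerDifferential.map_D, LinearMap.id_apply] at h
  simp [h]

theorem dual_frame {F : Type} [Field F] [CharZero F] {n : ℕ} {f : Fin n → F}
    (ind : AlgebraicIndependent ℚ f) (i : Fin n) :
    ∃ η : Derivation ℚ F F, ∀ j, η (f j) = (Pi.single i 1 : Fin n → F) j := by
  let _ := (MvPolynomial.aeval f : MvPolynomial (Fin n) ℚ →ₐ[ℚ] F).toAlgebra
  have : FaithfulSMul (MvPolynomial (Fin n) ℚ) F :=
    (faithfulSMul_iff_algebraMap_injective _ _).2 ind
  obtain ⟨η, hη⟩ := extend (MvPolynomial (Fin n) ℚ) F
    (MvPolynomial.mkDerivation ℚ (Pi.single i 1))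
  refine ⟨η, fun j => ?_⟩
  have := hη (MvPolynomial.X j)
  rw [MvPolynomial.mkDerivation_X] at this
  rw [← this]
  congr 1
  exact (MvPolynomial.aeval_X f j).symm

variable {L F : Type} [Field L] [Field F] [CharZero L] [CharZero F] [Algebra L F]

theorem exists_dt {t : F} (ht : Transcendental L t) :
    ∃ η : Derivation ℚ F F, (∀ a : L, η (algebraMap L F a) = 0) ∧ η t = 1 := by
  let _ := (Polynomial.aeval t : Polynomial L →ₐ[L] F).toAlgebra
  have : FaithfulSMul (Polynomial L) F :=
    (faithfulSMul_iff_algebraMap_injective _ _).2 (transcendental_iff_injective.1 ht)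
  obtain ⟨η, hη⟩ := extend (Polynomial L) F
    ((Algebra.linearMap (Polynomial L) F).compDer (Polynomial.derivative'.restrictScalars ℚ))
  have e : ∀ p : Polynomial L, η (Polynomial.aeval t p)
      = Polynomial.aeval t (Polynomial.derivative p) := fun p => hη p
  refine ⟨η, fun a => ?_, ?_⟩
  · simpa using e (Polynomial.C a)
  · simpa using e Polynomial.X

omit [CharZero F] in
/-- the integral closure of `L[s]` -/
theorem dedekind [Algebra.EssFiniteType L F] (s : F)
    (h : Algebra.IsAlgebraic (Algebra.adjoin L {s}) F) :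
    IsDedekindDomain (integralClosure (Algebra.adjoin L {s}) F) ∧
    IsFractionRing (integralClosure (Algebra.adjoin L {s}) F) F ∧
    Module.Finite (Algebra.adjoin L {s}) (integralClosure (Algebra.adjoin L {s}) F) := by
  have : IsPrincipalIdealRing (Algebra.adjoin L {s}) := by
    rw [Algebra.adjoin_singleton_eq_range_aeval]
    exact IsPrincipalIdealRing.of_surjective (Polynomial.aeval s).rangeRestrict.toRingHom
      (AlgHom.rangeRestrict_surjective _)
  have : Algebra.IsAlgebraic L⟮s⟯ F := Algebra.IsAlgebraic.extendScalars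
    (R := Algebra.adjoin L {s}) (IsFractionRing.injective _ _)
  have : Algebra.EssFiniteType L⟮s⟯ F := .of_comp L _ _
  have : Module.Finite L⟮s⟯ F := Algebra.finite_of_essFiniteType_of_isAlgebraic
  exact ⟨integralClosure.isDedekindDomain _ L⟮s⟯ F,
    IsIntegralClosure.isFractionRing_of_finite_extension (Algebra.adjoin L {s}) L⟮s⟯ F _,
    IsIntegralClosure.finite _ L⟮s⟯ F _⟩

end Pool.Agent.Lib.MP_62ba83_co.S
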