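import Pool.Agent.Lib.MP_62ba83_co.S.Pres

set_option autoImplicit false

namespace Pool.Agent.Lib.MP_62ba83_co.S

open Polynomial WithZero IntermediateField

variable {L F : Type} [Field L] [Field F] [CharZero L] [CharZero F] [Algebra L F]

omit [CharZero L] in
theorem der_aeval0 (δ : Derivation ℚ F F) (hδ : ∀ a : L, δ (algebraMap L F a) = 0) (x : F)
    (p : L[X]) : δ (aeval x p) = aeval x (derivative p) * δ x := by
  induction p using Polynomial.induction_on' with
  | add p q hp hq => simp only [map_add, hp, hq]; ring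
  | monomial n a =>
    simp [aeval_monomial, derivative_monomial, Derivation.leibniz_pow, hδ]
    ring

/-- a nonzero derivation over the constants kills only algebraic elements -/
theorem alg_of_der (hF : OneVar L F) (δ : Derivation ℚ F F)
    (hδ : ∀ a : L, δ (algebraMap L F a) = 0) {t s : F} (ht : δ t ≠ 0) (hs : δ s = 0) :
    IsAlgebraic L s := by
  by_contra h
  have hA : ∀ a : Algebra.adjoin L {s}, δ a = 0 := by
    rintro ⟨a, ha⟩
    obtain ⟨p, rfl⟩ := (Algebra.adjoin_singleton_eq_range_aeval L s).le ha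
    change δ (aeval s p) = 0
    rw [der_aeval0 δ hδ, hs, mul_zero]
  obtain ⟨p, hp0, hp⟩ := (hF s h).1 t
  have key : ∀ q : (Algebra.adjoin L {s})[X], δ (aeval t q) = aeval t (derivative q) * δ t := by
    intro q
    induction q using Polynomial.induction_on' with
    | add p q hp hq => simp only [map_add, hp, hq]; ring
    | monomial n a =>
      simp [aeval_monomial, derivative_monomial, Derivation.leibniz_pow, hA]
      ring
  have : CharZero (Algebra.adjoin L {s}) := algebraRat.charZero _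
  induction hn : p.natDegree using Nat.strong_induction_on generalizing p with
  | _ n ih =>
    have hd : p.natDegree ≠ 0 := by
      intro h
      rw [eq_C_of_natDegree_eq_zero h] at hp hp0
      rw [aeval_C] at hp
      exact hp0 (by rw [show p.coeff 0 = 0 from Subtype.ext hp, map_zero])
    refine ih _ (hn ▸ natDegree_derivative_lt hd) _ (fun e => hd (derivative_eq_zero.1 e)) ?_ rfl
    have := key p
    rw [hp, map_zero] at this
    exact (mul_eq_zero.1 this.symm).resolve_right ht

omit [CharZero F] in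
/-- an element without poles is algebraic over the constants -/
theorem alg_of_val [Algebra.EssFiniteType L F] (hF : OneVar L F) (W : F)
    (h : ∀ v : Valuation F (WithZero (Multiplicative ℤ)), Function.Surjective v →
      (∀ a : L, v (algebraMap L F a) ≤ 1) → v W ≤ 1) : IsAlgebraic L W := by
  by_contra hW
  have h0 : W ≠ 0 := fun e => hW (e ▸ isAlgebraic_zero)
  have hs : Transcendental L W⁻¹ := fun e => hW (IsAlgebraic.inv_iff.1 e)
  obtain ⟨d1, d2, -⟩ := dedekind W⁻¹ (hF _ hs)
  obtain ⟨c, hc⟩ := IsDedekindDomain.HeightOneSpectrum.mem_integers_of_valuation_le_one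
    (R := integralClosure (Algebra.adjoin L {W⁻¹}) F) F W fun p =>
      h _ (p.valuation_surjective F) fun a => p.valuation_le_one (K := F)
        (⟨_, isIntegral_algebraMap
          (x := (⟨_, Subalgebra.algebraMap_mem _ a⟩ : Algebra.adjoin L {W⁻¹}))⟩ :
          integralClosure (Algebra.adjoin L {W⁻¹}) F)
  have hi : IsIntegral (Algebra.adjoin L {W⁻¹}) W := by
    have h2 : IsIntegral (Algebra.adjoin L {W⁻¹}) (algebraMap _ F c) := c.2
    rwa [hc] at h2
  have := isIntegral_of_isIntegral_adjoin_of_mul_eq_one W W⁻¹ (inv_mul_cancel₀ h0) hi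
  exact hW this.isAlgebraic

section
variable (v : Valuation F (WithZero (Multiplicative ℤ))) (hL : ∀ a : L, v (algebraMap L F a) ≤ 1)
include hL

omit [CharZero L] [CharZero F] in
theorem val_poly {t : F} (ht : v t ≤ 1) {p : L[X]} (hp : v (aeval t p) < 1)
    (hd : ∀ q : L[X], v (aeval t q) < 1 → p ∣ q) (q : L[X]) (hq : q ≠ 0) :
    ∃ n : ℕ, v (aeval t q) = v (aeval t p) ^ n := by
  have hu : ¬ IsUnit p := by
    intro h
    obtain ⟨a, ha, rfl⟩ := Polynomial.isUnit_iff.1 h
    rw [aeval_C, v_const v hL ha.ne_zero] at hp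
    exact lt_irrefl _ hp
  obtain ⟨n, r, hr, rfl⟩ := WfDvdMonoid.max_power_factor' hq hu
  refine ⟨n, ?_⟩
  rw [map_mul, map_pow, map_mul, map_pow,
    le_antisymm (v_aeval v hL ht r) (not_lt.1 fun h => hr (hd r h)), mul_one]

/-- the field `y d/dt` has no pole at a place where `t` is finite -/
theorem field_fin [Algebra.EssFiniteType L F] (hF : OneVar L F) (hv : Function.Surjective v)
    {t y : F} (tr : Transcendental L t) (ht : v t ≤ 1) (y0 : y ≠ 0) {P : L[X]}
    (hy : y ^ 2 = aeval t P) (gen : ∀ z, ∃ a ∈ L⟮t⟯, ∃ b ∈ L⟮t⟯, z = a + b * y)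
    (δ : Derivation ℚ F F) (hδ : ∀ a : L, δ (algebraMap L F a) = 0) (hδt : v (δ t) = v y) :
    ∀ x, v x ≤ 1 → v (δ x) ≤ 1 := by
  obtain ⟨π, h1⟩ := hv (exp (-1))
  have h0 : π ≠ 0 := by rintro rfl; exact exp_ne_zero (by rw [← h1, map_zero])
  have h2 : v π < 1 := by rw [h1, ← exp_zero, exp_lt_exp]; norm_num
  refine preserve v hL hF h1 δ (fun a => by simp [hδ]) ?_
  obtain ⟨p, p0, hp, hp', hd⟩ := exists_sep v hL hF h0 h2 ht
  have inj : ∀ q : L[X], q ≠ 0 → aeval t q ≠ 0 := fun q hq e => tr ⟨q, hq, e⟩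
  obtain ⟨e, he⟩ : ∃ e : ℤ, v (aeval t p) = exp (-e) :=
    ⟨-log (v (aeval t p)), by rw [neg_neg, exp_log (by simpa using inj p p0)]⟩
  obtain ⟨m, hm⟩ : ∃ m : ℤ, v y = exp (-m) :=
    ⟨-log (v y), by rw [neg_neg, exp_log (by simpa using y0)]⟩
  have e1 : 1 ≤ e := by
    rw [he, ← exp_zero, exp_lt_exp] at hp
    omega
  have m0 : 0 ≤ m := by
    have := v_aeval v hL ht P
    rw [← hy, map_pow, hm, ← exp_nsmul, ← exp_zero, exp_le_exp] at this
    simpa using this
  have hK : ∀ a ∈ L⟮t⟯, a ≠ 0 → ∃ i : ℤ, v a = exp (i * e) := by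
    intro a ha a0
    obtain ⟨r, s, rfl⟩ := (mem_adjoin_simple_iff L a).1 ha
    obtain ⟨n, hn⟩ := val_poly v hL ht hp hd r (by rintro rfl; simp at a0)
    obtain ⟨k, hk⟩ := val_poly v hL ht hp hd s (by rintro rfl; simp at a0)
    refine ⟨k - n, ?_⟩
    rw [map_div₀, hn, hk, he, ← exp_nsmul, ← exp_nsmul, ← exp_sub]
    congr 1
    simp only [nsmul_eq_mul]
    ring
  have hyK : y ^ 2 ∈ L⟮t⟯ := hy ▸ (mem_adjoin_simple_iff L _).2 ⟨P, 1, by simp⟩
  have two : v 2 = 1 := by
    have := v_const v hL (two_ne_zero (α := L))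
    rwa [map_ofNat] at this
  obtain ⟨k, hk⟩ := hK _ hyK (pow_ne_zero _ y0)
  rw [map_pow, hm, ← exp_nsmul, exp_inj] at hk
  have em : e - 1 ≤ m := by
    obtain ⟨a, ha, b, hb, hπ⟩ := gen π
    obtain ⟨i, j, hij⟩ : ∃ i j : ℤ, -1 = i * e + j * m := by
      have A : ∀ z, v z = v a → z ≠ 0 → ∃ i j : ℤ, v z = exp (i * e + j * m) := by
        intro z hz z0
        obtain ⟨i, hi⟩ := hK a ha (by rintro rfl; simp [z0] at hz)
        exact ⟨i, 0, by simp [hz, hi]⟩
      have B : ∀ z, v z = v (b * y) → z ≠ 0 → ∃ i j : ℤ, v z = exp (i * e + j * m) := by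
        intro z hz z0
        obtain ⟨i, hi⟩ := hK b hb (by rintro rfl; simp [z0] at hz)
        exact ⟨i, -1, by rw [hz, map_mul, hi, hm, ← exp_add]; simp⟩
      suffices ∃ i j : ℤ, v π = exp (i * e + j * m) by
        obtain ⟨i, j, h⟩ := this
        exact ⟨i, j, exp_inj.1 (h1 ▸ h)⟩
      rcases lt_trichotomy (v a) (v (b * y)) with h | h | h
      · exact B π (hπ ▸ v.map_add_eq_of_lt_right h) h0
      · by_cases c : v π = v a
        · exact A π c h0
        have lt : v π < v a := lt_of_le_of_ne (hπ ▸ v.map_add_le le_rfl h.ge) c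
        have e' : v (a - b * y) = v a := by
          have : a - b * y = 2 * a - π := by rw [hπ]; ring
          have h3 : v (2 * a) = v a := by rw [map_mul, two, one_mul]
          rw [this, v.map_sub_eq_of_lt_left (h3 ▸ lt), h3]
        have z0 : a - b * y ≠ 0 := by
          intro z
          rw [z, map_zero] at e'
          exact absurd (e' ▸ lt) (by simp)
        obtain ⟨i, j, hij⟩ := A _ e' z0
        have N : π * (a - b * y) ∈ L⟮t⟯ := by
          have : π * (a - b * y) = a * a - b * b * y ^ 2 := by rw [hπ]; ring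
          exact this ▸ sub_mem (mul_mem ha ha) (mul_mem (mul_mem hb hb) hyK)
        obtain ⟨l, hl⟩ := hK _ N (mul_ne_zero h0 z0)
        rw [map_mul, hij, h1, ← exp_add, exp_inj] at hl
        exact ⟨l - i, -j, by rw [h1, exp_inj]; linear_combination hl⟩
      · exact A π (hπ ▸ v.map_add_eq_of_lt_left h) h0
    have hdv : e ∣ 2 := ⟨j * k - 2 * i, by
      simp only [nsmul_eq_mul, Nat.cast_ofNat] at hk
      linear_combination -2 * hij + j * hk⟩
    have e2 := Int.le_of_dvd two_pos hdv
    rcases m0.eq_or_lt with rfl | h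
    · have : e ∣ 1 := ⟨-i, by linear_combination -hij⟩
      have := Int.le_of_dvd one_pos this
      omega
    · omega
  have t0 : δ t ≠ 0 := by
    intro h
    rw [h, map_zero] at hδt
    exact y0 (by simpa using hδt.symm)
  have π0 : δ π ≠ 0 := fun h => transc v hL h0 h2 (alg_of_der hF δ hδ t0 h)
  let η : Derivation ℚ F F := (δ π)⁻¹ • δ
  have ηπ : η π = 1 := by simp [η, π0]
  have hη := preserve v hL hF h1 η (fun a => by simp [η, hδ]) (by simp [ηπ])
  lift e to ℕ using (by omega)
  obtain ⟨n, rfl⟩ : ∃ n, e = n + 1 := ⟨e - 1, by omega⟩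
  set ε := aeval t p / π ^ (n + 1) with hε
  have vε : v ε = 1 := by
    rw [hε, map_div₀, map_pow, he, h1, ← exp_nsmul, ← exp_sub]
    simp
  have u : aeval t p = ε * π ^ (n + 1) := by rw [hε]; field_simp
  have d1 : aeval t (derivative p) * δ t
      = δ π * (π ^ n * (algebraMap L F (n + 1) * ε + π * η ε)) := by
    rw [← der_aeval0 δ hδ, u]
    simp only [η, Derivation.leibniz, Derivation.leibniz_pow, Derivation.smul_apply, smul_eq_mul,
      nsmul_eq_mul, Nat.add_sub_cancel, map_add, map_natCast, map_one]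
    push_cast
    field_simp
    ring
  have un : v (algebraMap L F (n + 1) * ε + π * η ε) = 1 := by
    have c : v (algebraMap L F (n + 1) * ε) = 1 := by
      rw [map_mul, vε, mul_one, v_const v hL (Nat.cast_add_one_ne_zero n)]
    rw [v.map_add_eq_of_lt_left, c]
    rw [c, map_mul]
    exact lt_of_le_of_lt (mul_le_of_le_one_right' (hη ε vε.le)) h2
  have d2 := congrArg v d1
  rw [map_mul, hp', one_mul, hδt, hm, map_mul, map_mul, un, mul_one, map_pow, h1, ← exp_nsmul,
    ← exp_log (x := v (δ π)) (by simpa using π0), ← exp_add, exp_inj] at d2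
  rw [← exp_log (x := v (δ π)) (by simpa using π0), ← exp_zero, exp_le_exp]
  simp only [nsmul_eq_mul] at d2
  push_cast at em
  omega

end

end Pool.Agent.Lib.MP_62ba83_co.S
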