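import Pool.Agent.Lib.MP_62ba83_co.S.Sweep
import Pool.Agent.Lib.MP_62ba83_co.S.Coord
import Pool.Agent.Lib.MP_62ba83_co.G.Gen
import Pool.Agent.Lib.MP_62ba83_co.BL.Adapt

set_option autoImplicit false

namespace Pool.Agent.Lib.MP_62ba83_co.S

open Polynomial IntermediateField G

theorem curve_coord {L F : Type} [Field L] [Field F] [CharZero L] [CharZero F] [Algebra L F]
    {t u : F} {P : L[X]} (hP : P.natDegree ≤ 4) (u0 : u ≠ 0) (hu : u ^ 2 = aeval t P)
    (gen : adjoin L {t, u} = ⊤) {D : F} {x y : Fin 5 → F} {d : Fin 5 → Fin 5 → F}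
    (hd : ∀ a b, d a b ^ 2 = (x a - x b) ^ 2 + D * (y a - y b) ^ 2)
    (x0 : x 0 = 0) (y0 : y 0 = 0) (x1 : x 1 = 1) (y1 : y 1 = 0) (y2 : y 2 = 1) (d01 : d 0 1 = 1)
    (ind : AlgebraicIndependent ℚ ![D, x 2, x 3, y 3, x 4, y 4]) (a b : Fin 5) :
    IsAlgebraic L (d a b) := by
  have ne := BL.ne_of hd x0 y0 x1 y1 y2 ind
  have D0 : D ≠ 0 := ind.ne_zero 0
  have p0 := prod9_ne ne
  have n23 := ne 2 3 (by decide)
  have q0 : qq d (0, 1, 2, 3) ≠ 0 := mul_ne_zero (ne _ _ (by decide)) n23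
  have H := fun q hq => nopole_coord hd x0 y0 x1 y1 y2 d01 ne D0 (q := q) (q' := (0, 1, 2, 3)) hq
    (by decide)
  let A := algebraicClosure L F
  have mem : ∀ z, z ∈ A ↔ IsAlgebraic L z := fun z => mem_algebraicClosure_iff
  rw [← mem]
  rcases sweep hP u0 hu gen ind (by simp [D0, p0, q0]) (H (0, 1, 2, 3) (by decide)) with h | h
  · have hm : ∀ i, ![D, x 2, x 3, y 3, x 4, y 4] i ∈ A := fun i => (mem _).2 (h i)
    have mx : ∀ i, x i ∈ A := by
      intro i
      fin_cases i
      exacts [x0 ▸ A.zero_mem, x1 ▸ A.one_mem, hm 1, hm 2, hm 4]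
    have my : ∀ i, y i ∈ A := by
      intro i
      fin_cases i
      exacts [y0 ▸ A.zero_mem, y1 ▸ A.zero_mem, y2 ▸ A.one_mem, hm 3, hm 5]
    refine (mem _).2 (IsAlgebraic.of_pow two_pos ((mem _).1 ?_))
    rw [hd]
    exact add_mem (pow_mem (sub_mem (mx _) (mx _)) _)
      (mul_mem (hm 0) (pow_mem (sub_mem (my _) (my _)) _))
  have r : ∀ a b c e : Fin 5, (a, b, c, e) ∈ quads → d a b * d c e / d 2 3 ∈ A := by
    intro a b c e hq
    refine (mem _).2 (h _ ?_)
    convert H _ hq using 1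
    simp only [qq, d01]
    field_simp
  have st : ∀ a b c e : Fin 5, (a, b, c, e) ∈ quads ∧ (0, 1, c, e) ∈ quads ∧ c < e →
      d a b ∈ A := by
    rintro a b c e ⟨h, h', h''⟩
    have n2 := ne _ _ h''
    have : d a b = d a b * d c e / d 2 3 / (d 0 1 * d c e / d 2 3) := by
      rw [d01]; field_simp
    rw [this]
    exact div_mem (r _ _ _ _ h) (r _ _ _ _ h')
  have l01 : d 0 1 ∈ A := d01 ▸ A.one_mem
  have l02 := st 0 2 3 4 (by decide)
  have l12 := st 1 2 3 4 (by decide)
  have l03 := st 0 3 2 4 (by decide)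
  have l13 := st 1 3 2 4 (by decide)
  have l04 := st 0 4 2 3 (by decide)
  have l14 := st 1 4 2 3 (by decide)
  have l23 : d 2 3 ∈ A := by
    have n1 := ne 0 2 (by decide)
    have n2 := ne 1 3 (by decide)
    have : d 2 3 = d 0 2 * d 1 3 / (d 0 2 * d 1 3 / d 2 3) := by field_simp
    rw [this]
    exact div_mem (mul_mem l02 l13) (r _ _ _ _ (by decide))
  have fin : ∀ c e : Fin 5, (0, 1, c, e) ∈ quads → d c e ∈ A := by
    intro c e hq
    have : d c e = d 0 1 * d c e / d 2 3 * d 2 3 := by rw [d01]; field_simp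
    rw [this]
    exact mul_mem (r _ _ _ _ hq) l23
  have l24 := fin 2 4 (by decide)
  have l34 := fin 3 4 (by decide)
  have lt : ∀ a b, a < b → d a b ∈ A := by
    intro a b h
    fin_cases a <;> fin_cases b <;> first | assumption | exact absurd h (by decide)
  rcases lt_trichotomy a b with h | rfl | h
  · exact lt a b h
  · have : d a a = 0 := pow_eq_zero_iff two_ne_zero |>.1 (by rw [hd]; ring)
    exact this ▸ A.zero_mem
  · have : d a b ^ 2 = d b a ^ 2 := by rw [hd, hd]; ring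
    rcases sq_eq_sq_iff_eq_or_eq_neg.1 this with e | e <;> rw [e]
    exacts [lt b a h, neg_mem (lt b a h)]

/-- no family of curves of genus at most one sweeps the five-point shapes -/
theorem curve (L F : Type) [Field L] [Field F] [CharZero L] [CharZero F] [Algebra L F]
    (t u : F) (P : L[X]) (hP : P.natDegree ≤ 4) (u0 : u ≠ 0) (hu : u ^ 2 = aeval t P)
    (gen : adjoin L {t, u} = ⊤) (d : Fin 5 → Fin 5 → F) (X Y : Fin 5 → AlgebraicClosure F)
    (planar : ∀ a b, algebraMap F (AlgebraicClosure F) (d a b) ^ 2 =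
      (X a - X b) ^ 2 + (Y a - Y b) ^ 2) (unit : d 0 1 = 1)
    (ind : AlgebraicIndependent ℚ ![d 0 2, d 1 2, d 0 3, d 1 3, d 0 4, d 1 4]) (a b : Fin 5) :
    IsAlgebraic L (d a b) := by
  let K := adjoin ℚ (Set.range fun p : Fin 5 × Fin 5 => d p.1 p.2)
  let d' : Fin 5 → Fin 5 → K := fun i j => ⟨d i j, subset_adjoin _ _ ⟨(i, j), rfl⟩⟩
  have i6 : AlgebraicIndependent ℚ ![d' 0 2, d' 1 2, d' 0 3, d' 1 3, d' 0 4, d' 1 4] := by
    refine AlgebraicIndependent.of_comp K.val ((congrArg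
      (fun c : Fin 6 → F => AlgebraicIndependent ℚ c) (funext fun i => ?_)).mp ind)
    fin_cases i <;> rfl
  obtain ⟨D, x, y, hd, x0, y0, x1, y1, y2, h⟩ := exists_coord K (AlgebraicClosure F) d' X Y planar
    (Subtype.ext unit) (by
      apply lift_injective K
      refine (lift_adjoin ..).trans (Eq.trans ?_ (lift_top ..).symm)
      rw [← Set.range_comp]
      rfl) (by simpa using i6.cardinalMk_le_trdeg)
  refine curve_coord hP u0 hu gen (D := D) (x := fun i => x i) (y := fun i => y i)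
    (fun i j => by simpa using congrArg Subtype.val (hd i j)) (by simp [x0]) (by simp [y0])
    (by simp [x1]) (by simp [y1]) (by simp [y2]) unit ?_ a b
  refine (congrArg (fun c : Fin 6 → F => AlgebraicIndependent ℚ c)
    (funext fun i => ?_)).mp (h.map' (f := K.val) Subtype.val_injective)
  fin_cases i <;> rfl

end Pool.Agent.Lib.MP_62ba83_co.S
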