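import Pool.Agent.Lib.MP_62ba83_co.S.Ext

set_option autoImplicit false

namespace Pool.Agent.Lib.MP_62ba83_co.S

open Polynomial WithZero

variable {L F : Type} [Field L] [Field F] [CharZero L] [CharZero F] [Algebra L F]

/-- one variable: algebraic over `L[s]` for every transcendental `s` -/
def OneVar (L F : Type) [Field L] [Field F] [Algebra L F] : Prop :=
  ∀ s : F, Transcendental L s → Algebra.IsAlgebraic (Algebra.adjoin L {s}) F

section
variable (v : Valuation F (WithZero (Multiplicative ℤ))) (hL : ∀ a : L, v (algebraMap L F a) ≤ 1)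
include hL
omit [CharZero L] [CharZero F]

theorem v_const {a : L} (ha : a ≠ 0) : v (algebraMap L F a) = 1 := by
  refine le_antisymm (hL a) ?_
  have h := hL a⁻¹
  rw [map_inv₀, map_inv₀] at h
  exact (inv_le_one₀ (zero_lt_iff.2 (by simpa using ha))).1 h

theorem v_aeval {x : F} (hx : v x ≤ 1) (p : L[X]) : v (aeval x p) ≤ 1 := by
  induction p using Polynomial.induction_on' with
  | add p q hp hq => rw [map_add]; exact v.map_add_le hp hq
  | monomial n a =>
    rw [aeval_monomial, map_mul, map_pow]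
    exact mul_le_one' (hL a) (pow_le_one' hx n)

theorem v_adj {x : F} (hx : v x ≤ 1) (z : Algebra.adjoin L {x}) : v z ≤ 1 := by
  obtain ⟨z, hz⟩ := z
  rw [Algebra.adjoin_singleton_eq_range_aeval] at hz
  obtain ⟨p, rfl⟩ := hz
  exact v_aeval v hL hx p

omit hL in
/-- a root of small value forces a small coefficient -/
theorem small_coeff {A : Type} [CommRing A] [IsDomain A] [Algebra A F]
    (hA : ∀ a : A, v (algebraMap A F a) ≤ 1) {π : F}
    (h0 : π ≠ 0) (h1 : v π < 1) (hπ : IsAlgebraic A π) :
    ∃ a : A, a ≠ 0 ∧ v (algebraMap A F a) < 1 := by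
  obtain ⟨a, ha0, y, hy⟩ : ∃ a : A, a ≠ 0 ∧ ∃ q : A[X], algebraMap A F a = π * aeval π q := by
    obtain ⟨p, hp0, hp⟩ := hπ
    obtain ⟨q, hq, hX⟩ := exists_eq_pow_rootMultiplicity_mul_and_not_dvd p hp0 0
    rw [hq, map_mul, map_pow] at hp
    have hq0 : aeval π q = 0 := by
      rcases mul_eq_zero.1 hp with h | h
      · exact (pow_ne_zero _ (by simpa using h0) h).elim
      · exact h
    refine ⟨q.coeff 0, fun h => hX (by simpa using X_dvd_iff.2 h), -q.divX, ?_⟩
    have := congrArg (aeval π) (X_mul_divX_add q)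
    rw [hq0, map_add, map_mul, aeval_X, aeval_C] at this
    rw [map_neg]
    linear_combination this
  refine ⟨a, ha0, ?_⟩
  have hq : v (aeval π y) ≤ 1 := by
    clear hy
    induction y using Polynomial.induction_on' with
    | add p q hp hq => rw [map_add]; exact v.map_add_le hp hq
    | monomial n a =>
      rw [aeval_monomial, map_mul, map_pow]
      exact mul_le_one' (hA a) (pow_le_one' h1.le n)
  rw [hy, map_mul]
  exact lt_of_le_of_lt (mul_le_of_le_one_right' hq) h1

theorem transc {π : F} (h0 : π ≠ 0) (h1 : v π < 1) : Transcendental L π := by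
  intro h
  obtain ⟨a, ha, h⟩ := small_coeff v hL h0 h1 h
  exact h.ne (v_const v hL ha)

theorem exists_small (hF : OneVar L F) {π : F} (h0 : π ≠ 0) (h1 : v π < 1) {x : F}
    (hx : v x ≤ 1) : ∃ p : L[X], p ≠ 0 ∧ v (aeval x p) < 1 := by
  by_cases ht : IsAlgebraic L x
  · obtain ⟨p, hp, h⟩ := ht
    exact ⟨p, hp, by simp [h]⟩
  obtain ⟨⟨a, ha⟩, ha0, h⟩ := small_coeff v (A := Algebra.adjoin L {x})
    (v_adj v hL hx) h0 h1 ((hF x ht).1 π)
  rw [Algebra.adjoin_singleton_eq_range_aeval] at ha
  obtain ⟨p, rfl⟩ := ha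
  exact ⟨p, fun e => ha0 (Subtype.ext (by simp [e])), h⟩
end

section
variable (v : Valuation F (WithZero (Multiplicative ℤ))) (hL : ∀ a : L, v (algebraMap L F a) ≤ 1)
include hL

omit [CharZero F] in
theorem exists_sep (hF : OneVar L F) {π : F} (h0 : π ≠ 0) (h1 : v π < 1) {x : F}
    (hx : v x ≤ 1) : ∃ p : L[X], p ≠ 0 ∧ v (aeval x p) < 1 ∧ v (aeval x (derivative p)) = 1 ∧
      ∀ q : L[X], v (aeval x q) < 1 → p ∣ q := by
  classical
  have ex : ∃ n, ∃ p : L[X], p ≠ 0 ∧ v (aeval x p) < 1 ∧ p.natDegree = n := by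
    obtain ⟨p, a, b⟩ := exists_small v hL hF h0 h1 hx
    exact ⟨_, p, a, b, rfl⟩
  obtain ⟨p, hp0, hp, hn⟩ := Nat.find_spec ex
  have mn : ∀ q : L[X], v (aeval x q) < 1 → q.natDegree < p.natDegree → q = 0 := by
    intro q hq hd
    by_contra h
    exact Nat.find_min ex (hn ▸ hd) ⟨q, h, hq, rfl⟩
  have hd : p.natDegree ≠ 0 := by
    intro h
    rw [eq_C_of_natDegree_eq_zero h] at hp hp0
    rw [aeval_C, v_const v hL (by simpa using hp0)] at hp
    exact lt_irrefl _ hp
  refine ⟨p, hp0, hp, le_antisymm (v_aeval v hL hx _) (not_lt.1 fun h => ?_), fun q hq => ?_⟩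
  · exact hd (derivative_eq_zero.1 (mn _ h (natDegree_derivative_lt hd)))
  · refine EuclideanDomain.mod_eq_zero.1 (mn _ ?_ (natDegree_mod_lt q hd))
    rw [EuclideanDomain.mod_eq_sub_mul_div, map_sub, map_mul]
    refine v.map_sub_lt hq ?_
    rw [map_mul]
    exact lt_of_le_of_lt (mul_le_of_le_one_right' (v_aeval v hL hx _)) hp

omit hL [CharZero L] in
theorem der_aeval (δ : Derivation ℚ F F) (hδ : ∀ a : L, v (δ (algebraMap L F a)) ≤ 1) {x : F}
    (hx : v x ≤ 1) (p : L[X]) : v (δ (aeval x p) - aeval x (derivative p) * δ x) ≤ 1 := by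
  induction p using Polynomial.induction_on' with
  | add p q hp hq =>
    convert v.map_add_le hp hq using 2
    simp only [map_add]
    ring
  | monomial n a =>
    have : δ (aeval x (monomial n a)) - aeval x (derivative (monomial n a)) * δ x
        = x ^ n * δ (algebraMap L F a) := by
      simp [aeval_monomial, derivative_monomial, Derivation.leibniz_pow]
      ring
    rw [this, map_mul, map_pow]
    exact mul_le_one' (pow_le_one' hx n) (hδ a)

omit hL in
theorem le_exp (γ : WithZero (Multiplicative ℤ)) : ∃ N : ℕ, γ ≤ exp (N : ℤ) := by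
  by_cases h : γ = 0
  · exact ⟨0, by simp [h]⟩
  exact ⟨(log γ).toNat, by rw [← exp_log h, exp_le_exp, log_exp]; omega⟩

theorem bounded [Algebra.EssFiniteType L F] (hF : OneVar L F) {π : F} (h0 : π ≠ 0) (h1 : v π < 1)
    (δ : Derivation ℚ F F) (hδ : ∀ a : L, v (δ (algebraMap L F a)) ≤ 1) (hπ : v (δ π) ≤ 1) :
    ∃ N : ℕ, ∀ x, v x ≤ 1 → v (δ x) ≤ exp (N : ℤ) := by
  classical
  obtain ⟨d1, d2, ⟨S, hS⟩⟩ := dedekind π (hF π (transc v hL h0 h1))
  set A := Algebra.adjoin L {π}
  have hA : ∀ a : A, v a ≤ 1 := v_adj v hL h1.le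
  have hA' : ∀ a : A, v (δ a) ≤ 1 := by
    rintro ⟨a, ha⟩
    obtain ⟨p, rfl⟩ := (Algebra.adjoin_singleton_eq_range_aeval L π).le ha
    have := v.map_add_le (der_aeval v δ hδ h1.le p)
      (show v (aeval π (derivative p) * δ π) ≤ 1 by
        rw [map_mul]; exact mul_le_one' (v_aeval v hL h1.le _) hπ)
    simpa using this
  let φ : A →+* v.integer := (A.val : A →+* F).codRestrict _ hA
  have hC : ∀ c : integralClosure A F, v c ≤ 1 := fun c =>
    (Valuation.integer.integers v).mem_of_integral
      (IsIntegral.map_of_comp_eq φ (RingHom.id F) rfl c.2)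
  choose g hg using fun c : integralClosure A F => le_exp (v (δ c))
  have one : (1 : WithZero (Multiplicative ℤ)) ≤ exp ((S.sup g : ℕ) : ℤ) := by
    rw [← exp_zero, exp_le_exp]; positivity
  have hB : ∀ c : integralClosure A F, v (δ c) ≤ exp ((S.sup g : ℕ) : ℤ) := by
    intro c
    have hc : c ∈ Submodule.span A (S : Set (integralClosure A F)) := hS ▸ Submodule.mem_top
    induction hc using Submodule.span_induction with
    | mem c hc => exact (hg c).trans (exp_le_exp.2 (by exact_mod_cast Finset.le_sup hc))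
    | zero => simp
    | add a b _ _ ha hb => rw [Subalgebra.coe_add, map_add]; exact v.map_add_le ha hb
    | smul a c _ hc =>
      change v (δ ((a : F) * c)) ≤ _
      rw [Derivation.leibniz, smul_eq_mul, smul_eq_mul]
      refine v.map_add_le ?_ ?_ <;> rw [map_mul]
      · exact (mul_le_of_le_one_left' (hA a)).trans hc
      · exact (mul_le_one' (hC c) (hA' a)).trans one
  let I : Ideal (integralClosure A F) :=
    { carrier := {c | v c < 1}
      add_mem' := fun ha hb => v.map_add_lt ha hb
      zero_mem' := by simp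
      smul_mem' := fun a c hc => by
        change v ((a : F) * c) < 1
        rw [map_mul]
        exact lt_of_le_of_lt (mul_le_of_le_one_left' (hC a)) hc }
  have hI : ∀ c, c ∉ I → v c = 1 := fun c h => le_antisymm (hC c) (not_lt.1 h)
  have pr : I.IsPrime := by
    refine ⟨(Ideal.ne_top_iff_one I).2 (by simp [I]), fun {a b} h => ?_⟩
    by_contra hh
    push Not at hh
    have : v ((a : F) * b) < 1 := h
    rw [map_mul, hI a hh.1, hI b hh.2, one_mul] at this
    exact lt_irrefl _ this
  have nb : I ≠ ⊥ := by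
    intro h
    let c : integralClosure A F :=
      ⟨π, isIntegral_algebraMap (x := (⟨π, Algebra.self_mem_adjoin_singleton L π⟩ : A))⟩
    have : c ∈ I := h1
    rw [h, Ideal.mem_bot] at this
    exact h0 (congrArg Subtype.val this)
  have fin : ∀ (x : F) (n d : integralClosure A F), v x ≤ 1 → v d = 1 → x * d = n →
      v (δ x) ≤ exp ((S.sup g : ℕ) : ℤ) := by
    intro x n d hx hd e
    have : (d : F) * δ x = δ n - x * δ d := by
      rw [← e, Derivation.leibniz, smul_eq_mul, smul_eq_mul]; ring
    have h2 : v ((d : F) * δ x) ≤ exp ((S.sup g : ℕ) : ℤ) := by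
      rw [this]
      refine v.map_sub_le (hB n) ?_
      rw [map_mul]
      exact (mul_le_of_le_one_left' hx).trans (hB d)
    rwa [map_mul, hd, one_mul] at h2
  refine ⟨S.sup g, fun x hx => ?_⟩
  obtain ⟨n, d, h | h⟩ := IsDedekindDomain.HeightOneSpectrum.exists_primeCompl_mul_eq_or_mul_eq
    (K := F) ⟨I, pr, nb⟩ x
  · exact fin x n d hx (hI _ d.2) h
  · refine fin x d n hx (le_antisymm (hC n) ?_) h
    have e : v x * v n = 1 := by rw [← map_mul, ← hI _ d.2]; exact congrArg v h
    exact e ▸ mul_le_of_le_one_left' hx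

/-- a derivation that is integral on the constants and on a uniformiser preserves the ring -/
theorem preserve [Algebra.EssFiniteType L F] (hF : OneVar L F) {π : F} (h1 : v π = exp (-1))
    (δ : Derivation ℚ F F) (hδ : ∀ a : L, v (δ (algebraMap L F a)) ≤ 1) (hπ : v (δ π) ≤ 1) :
    ∀ x, v x ≤ 1 → v (δ x) ≤ 1 := by
  have h0 : π ≠ 0 := by rintro rfl; exact exp_ne_zero (by rw [← h1, map_zero])
  have h2 : v π < 1 := by rw [h1, ← exp_zero, exp_lt_exp]; norm_num
  obtain ⟨N, hN⟩ := bounded v hL hF h0 h2 δ hδ hπ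
  induction N with
  | zero => simpa using hN
  | succ N ih =>
    refine ih fun x hx => ?_
    have one : (1 : WithZero (Multiplicative ℤ)) ≤ exp (N : ℤ) := by
      rw [← exp_zero, exp_le_exp]; positivity
    obtain ⟨p, -, hp, hp', -⟩ := exists_sep v hL hF h0 h2 hx
    have hy : v (aeval x p / π) ≤ 1 := by
      rw [map_div₀, h1, div_le_one₀ (by simp)]
      by_cases z : v (aeval x p) = 0
      · simp [z]
      rw [← exp_log z, ← exp_zero, exp_lt_exp] at hp
      rw [← exp_log z, exp_le_exp]
      omega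
    have e : aeval x (derivative p) * δ x = π * δ (aeval x p / π) + aeval x p / π * δ π
        - (δ (aeval x p) - aeval x (derivative p) * δ x) := by
      have : δ (aeval x p) = δ (π * (aeval x p / π)) := by rw [mul_div_cancel₀ _ h0]
      rw [this, Derivation.leibniz, smul_eq_mul, smul_eq_mul]
      ring
    have h3 : v (aeval x (derivative p) * δ x) ≤ exp (N : ℤ) := by
      rw [e]
      refine v.map_sub_le (v.map_add_le ?_ ?_) ((der_aeval v δ hδ hx p).trans one)
      · rw [map_mul, h1]
        refine (mul_le_mul_right (hN _ hy) _).trans ?_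
        rw [← exp_add, exp_le_exp]
        push_cast
        omega
      · rw [map_mul]
        exact (mul_le_one' hy hπ).trans one
    rwa [map_mul, hp', one_mul] at h3

end

end Pool.Agent.Lib.MP_62ba83_co.S
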