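import Pool.Agent.Lib.MP_62ba83_co.S.Field

set_option autoImplicit false

namespace Pool.Agent.Lib.MP_62ba83_co.S

open Polynomial WithZero IntermediateField TensorProduct

variable {L F : Type} [Field L] [Field F] [CharZero L] [CharZero F] [Algebra L F]

/-- derivations that map constants to constants -/
def Adm (L : Type) {F : Type} [Field L] [Field F] [CharZero F] [Algebra L F]
    (δ : Derivation ℚ F F) : Prop :=
  ∀ a : L, ∃ b : L, δ (algebraMap L F a) = algebraMap L F b

theorem omega_zero (ω : Ω[F⁄ℚ])
    (h : ∀ δ : Derivation ℚ F F, Adm L δ → δ.liftKaehlerDifferential ω = 0) : ω = 0 := by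
  have h1 : KaehlerDifferential.map ℚ L F F ω = 0 := by
    rw [← Module.forall_dual_apply_eq_zero_iff F]
    intro φ
    have := h ((φ.compDer (KaehlerDifferential.D L F)).restrictScalars ℚ)
      fun a => ⟨0, by simp⟩
    rw [← this]
    refine (LinearMap.congr_fun (f := φ ∘ₗ KaehlerDifferential.map ℚ L F F) ?_ ω)
    refine Derivation.liftKaehlerDifferential_unique _ _ ?_
    ext x
    simp
  obtain ⟨ξ, rfl⟩ := (KaehlerDifferential.exact_mapBaseChange_map ℚ L F ω).1 h1
  let b := Module.Basis.ofVectorSpace L Ω[L⁄ℚ]
  have : ξ = 0 := by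
    refine (b.baseChange F).ext_elem fun i => ?_
    obtain ⟨η, hη⟩ := extend L F ((Algebra.linearMap L F ∘ₗ b.coord i).compDer
      (KaehlerDifferential.D ℚ L))
    have h2 := h η fun a => ⟨_, hη a⟩
    rw [map_zero, Finsupp.zero_apply, ← h2]
    have e : η.liftKaehlerDifferential.restrictScalars L ∘ₗ KaehlerDifferential.map ℚ ℚ L F
        = Algebra.linearMap L F ∘ₗ b.coord i := by
      refine Derivation.liftKaehlerDifferential_unique _ _ ?_
      ext x
      simpa using hη x
    clear h h1 h2
    induction ξ using TensorProduct.induction_on with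
    | zero => simp
    | add x y hx hy => simp only [map_add, Finsupp.add_apply, hx, hy]
    | tmul x y =>
      have := LinearMap.congr_fun e y
      simp only [LinearMap.comp_apply, LinearMap.restrictScalars_apply] at this
      rw [KaehlerDifferential.mapBaseChange_tmul, map_smul, this]
      simp [Algebra.smul_def, mul_comm]
  rw [this, map_zero]

theorem rows_span {n : ℕ} {f : Fin n → F} (ind : AlgebraicIndependent ℚ f) :
    Submodule.span F {r : Fin n → F | ∃ δ : Derivation ℚ F F, Adm L δ ∧ r = fun j => δ (f j)}
      = ⊤ := by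
  by_contra hc
  obtain ⟨φ, φ0, hφ⟩ := Submodule.exists_le_ker_of_lt_top _ (lt_top_iff_ne_top.2 hc)
  have e : ∀ δ : Derivation ℚ F F, δ.liftKaehlerDifferential
      (∑ j, φ (Pi.single j 1) • KaehlerDifferential.D ℚ F (f j)) = φ fun j => δ (f j) := by
    intro δ
    rw [LinearMap.pi_apply_eq_sum_univ φ, map_sum]
    refine Finset.sum_congr rfl fun j _ => ?_
    rw [map_smul, Derivation.liftKaehlerDifferential_comp_D, smul_eq_mul, smul_eq_mul, mul_comm]
    congr 2
    ext i
    simp [Pi.single_apply, eq_comm]
  have z := omega_zero (L := L) _ fun δ hδ =>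
    (e δ).trans (hφ (Submodule.subset_span ⟨δ, hδ, rfl⟩))
  apply φ0
  refine LinearMap.pi_ext fun i x => ?_
  obtain ⟨η, hη⟩ := dual_frame ind i
  have := e η
  rw [z, map_zero, funext hη] at this
  have h2 : (Pi.single i x : Fin n → F) = x • Pi.single i 1 := by
    ext j
    simp [Pi.single_apply]
  rw [h2, map_smul, ← this]
  simp

omit [CharZero F] in
theorem det_zero {n : ℕ} (R : Set (Fin n → F)) (hR : Submodule.span F R = ⊤) (k : Fin n)
    (r : Fin n → F)
    (h : ∀ M : Matrix (Fin n) (Fin n) F, M k = r → (∀ i, i ≠ k → M i ∈ R) → M.det = 0) :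
    r k = 0 := by
  have key : ∀ s : Finset (Fin n), ∀ M : Matrix (Fin n) (Fin n) F, M k = r →
      (∀ i, i ≠ k → i ∉ s → M i ∈ R) → M.det = 0 := by
    intro s
    induction s using Finset.induction_on with
    | empty => exact fun M a b => h M a fun i hi => b i hi (by simp)
    | insert i s hi ih =>
      intro M a b
      by_cases e : i = k
      · exact ih M a fun j hj hs => b j hj (by simp [hs, e, hj])
      have : ∀ w ∈ Submodule.span F R, (M.updateRow i w).det = 0 := by
        intro w hw
        induction hw using Submodule.span_induction with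
        | mem w hw =>
          refine ih _ (by rw [Matrix.updateRow_ne (Ne.symm e), a]) fun j hj hs => ?_
          by_cases c : j = i
          · rw [c, Matrix.updateRow_self]; exact hw
          · rw [Matrix.updateRow_ne c]; exact b j hj (by simp [hs, c])
        | zero => exact Matrix.det_eq_zero_of_row_eq_zero i (by simp)
        | add x y _ _ hx hy => rw [Matrix.det_updateRow_add, hx, hy, add_zero]
        | smul c x _ hx => rw [Matrix.det_updateRow_smul, hx, mul_zero]
      simpa using this (M i) (hR ▸ Submodule.mem_top)
  have := key Finset.univ ((1 : Matrix (Fin n) (Fin n) F).updateRow k r) (by simp) (by simp)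
  rwa [← Matrix.cramer_transpose_apply, Matrix.transpose_one, Matrix.cramer_one] at this

end Pool.Agent.Lib.MP_62ba83_co.S
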