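import Pool.Agent.Lib.MP_62ba83_co.S.Span
import Pool.Agent.Lib.MP_62ba83_co.G.Defs

set_option autoImplicit false

namespace Pool.Agent.Lib.MP_62ba83_co.S

open Polynomial WithZero IntermediateField

variable {L F : Type} [Field L] [Field F] [CharZero L] [CharZero F] [Algebra L F]

omit [CharZero L] [CharZero F] in
theorem normal_form {t y : F} {P : L[X]} (hy : y ^ 2 = aeval t P)
    (gen : adjoin L {t, y} = ⊤) (z : F) : ∃ a ∈ L⟮t⟯, ∃ b ∈ L⟮t⟯, z = a + b * y := by
  have hyK : y ^ 2 ∈ L⟮t⟯ := hy ▸ (mem_adjoin_simple_iff L _).2 ⟨P, 1, by simp⟩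
  have hz : z ∈ adjoin L {t, y} := gen ▸ mem_top
  induction hz using adjoin_induction with
  | mem z hz =>
    rcases hz with rfl | rfl
    · exact ⟨_, mem_adjoin_simple_self L _, 0, zero_mem _, by simp⟩
    · exact ⟨0, zero_mem _, 1, one_mem _, by simp⟩
  | algebraMap q => exact ⟨_, IntermediateField.algebraMap_mem _ q, 0, zero_mem _, by simp⟩
  | add a b _ _ ha hb =>
    obtain ⟨a, h1, b, h2, rfl⟩ := ha
    obtain ⟨c, h3, d, h4, rfl⟩ := hb
    exact ⟨_, add_mem h1 h3, _, add_mem h2 h4, by ring⟩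
  | inv a _ ha =>
    obtain ⟨a, h1, b, h2, rfl⟩ := ha
    by_cases c : a - b * y = 0
    · exact ⟨(a + a)⁻¹, inv_mem (add_mem h1 h1), 0, zero_mem _, by rw [← sub_eq_zero.1 c]; simp⟩
    have N : a * a - b * b * y ^ 2 ∈ L⟮t⟯ := sub_mem (mul_mem h1 h1) (mul_mem (mul_mem h2 h2) hyK)
    refine ⟨_, div_mem h1 N, _, div_mem (neg_mem h2) N, ?_⟩
    rw [show a * a - b * b * y ^ 2 = (a + b * y) * (a - b * y) by ring]
    by_cases e : a + b * y = 0
    · simp [e]
    field_simp
    ring
  | mul a b _ _ ha hb =>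
    obtain ⟨a, h1, b, h2, rfl⟩ := ha
    obtain ⟨c, h3, d, h4, rfl⟩ := hb
    exact ⟨_, add_mem (mul_mem h1 h3) (mul_mem (mul_mem h2 h4) hyK), _,
      add_mem (mul_mem h1 h4) (mul_mem h2 h3), by ring⟩

omit [CharZero L] [CharZero F] in
theorem alg_adj {t y : F} {P : L[X]} (hy : y ^ 2 = aeval t P) (gen : adjoin L {t, y} = ⊤) :
    Algebra.IsAlgebraic (Algebra.adjoin L {t}) F := by
  have al : ∀ z ∈ Algebra.adjoin L {t}, IsAlgebraic (Algebra.adjoin L {t}) z :=
    fun z hz => isAlgebraic_algebraMap (⟨z, hz⟩ : Algebra.adjoin L {t})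
  refine ⟨fun z => ?_⟩
  have hz : z ∈ adjoin L {t, y} := gen ▸ mem_top
  induction hz using adjoin_induction with
  | mem z hz =>
    rcases hz with rfl | rfl
    · exact al _ (Algebra.self_mem_adjoin_singleton L _)
    · exact IsAlgebraic.of_pow two_pos (al _ (hy ▸ aeval_mem_adjoin_singleton L t))
  | algebraMap q => exact al _ (Subalgebra.algebraMap_mem _ q)
  | add a b _ _ ha hb => exact ha.add hb
  | inv a _ ha => exact ha.inv
  | mul a b _ _ ha hb => exact ha.mul hb

omit [CharZero L] [CharZero F] in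
theorem oneVar {t : F} (h : Algebra.IsAlgebraic (Algebra.adjoin L {t}) F) : OneVar L F := by
  intro s hs
  have h1 : Algebra.trdeg L F ≤ 1 := by
    simpa using Algebra.IsAlgebraic.trdeg_le_cardinalMk L ({t} : Set F)
  have h2 : AlgebraicIndependent L fun _ : Unit => s := algebraicIndependent_unique_type_iff.2 hs
  have h3 := (h2.isTranscendenceBasis_of_trdeg_le_of_finite (by simpa using h1)).isAlgebraic
  rwa [Set.range_const] at h3

/-- forms without poles have constant ratios along a curve `y ^ 2 = P t` of degree at most four -/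
theorem sweep {t y : F} {P : L[X]} (hP : P.natDegree ≤ 4) (y0 : y ≠ 0) (hy : y ^ 2 = aeval t P)
    (gen : adjoin L {t, y} = ⊤) {n m : ℕ} {f : Fin n → F} (ind : AlgebraicIndependent ℚ f)
    {g : F} (g0 : g ≠ 0) (hg : G.NoPole m f g) :
    (∀ j, IsAlgebraic L (f j)) ∨ ∀ h, G.NoPole m f (g * h) → IsAlgebraic L h := by
  classical
  have hA := alg_adj hy gen
  by_cases tr : IsAlgebraic L t
  · have : Algebra.IsAlgebraic L (Algebra.adjoin L {t}) :=
      (Subalgebra.isAlgebraic_iff _).1 (Algebra.isAlgebraic_adjoin_singleton_iff.2 tr)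
    exact .inl fun j => (hA.1 _).restrictScalars L
  have hF := oneVar hA
  have : Algebra.EssFiniteType L F :=
    IntermediateField.fg_top_iff.1 ⟨{t, y}, by simpa using gen⟩
  obtain ⟨η, hη, ηt⟩ := exists_dt tr
  let D : Derivation ℚ F F := y • η
  have hD : ∀ a : L, D (algebraMap L F a) = 0 := fun a => by simp [D, hη]
  have Dt : D t = y := by simp [D, ηt]
  have t0 : t ≠ 0 := fun e => tr (e ▸ isAlgebraic_zero)
  have pres : ∀ v : Valuation F (WithZero (Multiplicative ℤ)), Function.Surjective v →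
      (∀ a : L, v (algebraMap L F a) ≤ 1) → ∀ x, v x ≤ 1 → v (D x) ≤ 1 := by
    intro v hv hL
    by_cases c : v t ≤ 1
    · exact field_fin v hL hF hv tr c y0 hy (normal_form hy gen) D hD (by rw [Dt])
    have e : L⟮t⁻¹⟯ = L⟮t⟯ := le_antisymm
      (adjoin_simple_le_iff.2 (inv_mem (mem_adjoin_simple_self L t)))
      (adjoin_simple_le_iff.2 (by simpa using inv_mem (mem_adjoin_simple_self L t⁻¹)))
    refine field_fin v hL hF hv (t := t⁻¹) (y := y / t ^ 2) (P := reflect 4 P)
      (fun h => tr (IsAlgebraic.inv_iff.1 h)) ?_ (div_ne_zero y0 (pow_ne_zero _ t0)) ?_ ?_ D hD ?_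
    · rw [map_inv₀]
      exact inv_le_one_of_one_le₀ (not_le.1 c).le
    · let _ := invertibleOfNonzero t0
      have := eval₂_reflect_mul_pow (algebraMap L F) t 4 P hP
      rw [invOf_eq_inv, ← aeval_def, ← aeval_def, ← hy] at this
      rw [div_pow, ← this]
      field_simp
    · intro z
      obtain ⟨a, ha, b, hb, rfl⟩ := normal_form hy gen z
      exact ⟨a, e ▸ ha, b * t ^ 2, e ▸ mul_mem hb (pow_mem (mem_adjoin_simple_self L t) 2),
        by field_simp⟩
    · rw [Derivation.leibniz_inv, Dt, smul_eq_mul, neg_mul, v.map_neg]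
      congr 1
      field_simp
  by_cases hz : ∀ j, D (f j) = 0
  · exact .inl fun j => alg_of_der hF D hD (Dt ▸ y0) (hz j)
  push Not at hz
  obtain ⟨k, hk⟩ := hz
  have := mt (det_zero _ (rows_span (L := L) ind) k fun j => D (f j)) hk
  push Not at this
  obtain ⟨M, Mk, hM, M0⟩ := this
  choose! δ hδ hδ' using hM
  have W : ∀ c, G.NoPole m f c → IsAlgebraic L (c * M.det ^ m) := by
    intro c hc
    refine alg_of_val hF _ fun v hv hL => ?_
    obtain ⟨π, h1⟩ := hv (exp (-1))
    have h0 : π ≠ 0 := by rintro rfl; exact exp_ne_zero (by rw [← h1, map_zero])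
    have h2 : v π < 1 := by rw [h1, ← exp_zero, exp_lt_exp]; norm_num
    have π0 : D π ≠ 0 := fun h => transc v hL h0 h2 (alg_of_der hF D hD (Dt ▸ y0) h)
    have := hc v hv (fun q => by simpa using hL q)
      (fun i => if i = k then D else δ i - (δ i π / D π) • D) (by
        intro i
        split_ifs with e
        · exact pres v hv hL
        · refine preserve v hL hF h1 _ (fun a => ?_) (by simp [π0])
          obtain ⟨b, hb⟩ := hδ i e a
          simpa [hD, hb] using hL b)
    rw [← Matrix.det_transpose, Matrix.det_eq_of_forall_row_eq_smul_add_const (B := M)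
      (fun i => if i = k then 0 else -(δ i π / D π)) k (by simp)] at this
    · exact this
    · intro i j
      by_cases e : i = k
      · simp [e, Mk]
      · simp [e, Mk, hδ' i e, sub_eq_add_neg]
  refine .inr fun h hh => ?_
  have : h = g * h * M.det ^ m * (g * M.det ^ m)⁻¹ := by field_simp
  rw [this]
  exact (W _ hh).mul (W _ hg).inv

end Pool.Agent.Lib.MP_62ba83_co.S
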